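import Pool.Agent.Helper14.W5.StB

/-!
# Project P17 (levels `17^n`): dimensions
-/

set_option autoImplicit false

namespace Pool.Agent.Helper76.P17

open Pool.Agent.Helper14.CV (Homog EqC act Tl)
open Pool.Agent.Helper14.W5

/-- The dimension of the new symbols of level `17^n` with `W = -1`, `* = +1`. -/
def dd17 (n : ℕ) : ℕ :=
  if n = 0 then 0
  else if n = 1 then 1
  else if n = 2 then 9
  else if n % 2 = 1 then 192 * 289 ^ (n / 2 - 1) + 16 * 17 ^ (n / 2 - 1)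
  else 3264 * 289 ^ (n / 2 - 2) - 32 * 17 ^ (n / 2 - 2)

/-- `1 + ∑_{m ≤ n} dd17 m`; `DD17 1 = 2`, `DD17 (2k) = 12 t² - t`, `DD17 (2k+1) = 204 t² + 15 t`, `t = 17^(k-1)`. -/
def DD17 (n : ℕ) : ℕ := 1 + ∑ m ∈ Finset.range (n + 1), dd17 m

/-- The space of new symbols of level `p^n` modulo constants has dimension at most `dd n` (`n ≥ 3`). -/
def UBP (p : ℕ) (dd : ℕ → ℕ) : Prop := ∀ n : ℕ, 3 ≤ n → ∃ Θ : NSP p n →ₗ[ℂ] (Fin (dd n) → ℂ),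
  ∀ G : NSP p n, Θ G = 0 → EqC (G : ℤ → ℤ → ℂ) 0

/-- Small values (sanity). -/
theorem dd17_small : dd17 1 = 1 ∧ dd17 2 = 9 ∧ dd17 3 = 208 ∧ dd17 4 = 3232 ∧
    DD17 1 = 2 ∧ DD17 2 = 11 ∧ DD17 3 = 219 ∧ DD17 4 = 3451 ∧ DD17 5 = 59211 := by
  refine ⟨?_, ?_, ?_, ?_, ?_, ?_, ?_, ?_, ?_⟩ <;> simp [dd17, DD17, Finset.sum_range_succ]

end Pool.Agent.Helper76.P17
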