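import Pool.Agent.Helper76.P17.Defs
import Pool.Agent.Helper78.W3.StC

/-!
# Project P17 (levels `17^n`): upper bound for new symbols

The shape of `Helper76/P13/StC.lean` (levels `13^n`; modules `Pool/Agent/*/P13/M_*.lean`) and of `Helper76/P11/StC.lean` (`Pool/Agent/*/P11/M_*.lean`, no dihedral group of order six, as here) with `17`. `μ = 0` (odd exponents): the plane is `Γ \ Γ₀(17)`, `μ = 1` (even exponents): `Γ \ {(a b; c d) | 17 ∣ b, 17 ∣ c}`. RULE FOR REFLECTIONS.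
`val π = {u, v} = G(gu) - G(gv)` for the path `π` from `v` to `u`, `F_π(p)` the value at the coordinates `p` of `g`. `b = (0 1; 1 0)` (even exponents, `μ = 1`), `b = (0 1; 17 0)` (odd exponents, `μ = 0`): if `g` has coordinates `p = (x, y)`, then `b⁻¹ g b` has coordinates `sw p = (y, x)`, `* g *` has `ng p`, `g M` has `trp μ a b c d p` for
`M = (a 17^μ b; 17c d)` of determinant one. `G∘* ≈ G`, `G∘b ≈ -G`. So for `ρ = M`: the value of `G` at the path `g ρ π` is `F_π(trp M p)`; for `ρ = b M`: `-F_π(trp M (sw p))`; for `ρ = * M`: `F_π(trp M (ng p))`; for `ρ = b * M`: `-F_π(trp M (ng (sw p)))`. All relations and the dimensions `208` (odd, `m = 1`), `3232` (even, `m = 1`) were checked by machine.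
EVEN EXPONENTS: the group generated by `{17 ∣ b, 17 ∣ c}`, `b`, `*` has index `153` in `PGL₂(ℤ)`; a fundamental polygon (24 triangles) has the 26 vertices `∞, 1, 8/7, 22/19, 7/6, 6/5, 5/4, 13/10, 4/3, 3/2, 11/7, 5/3, 2, 7/3, 12/5, 5/2, 8/3, 3, 7/2, 4, 9/2, 5, 6, 13/2, 7, 8`. Three sides `{∞, 1}`, `{2, 7/3}`, `{8, ∞}` lead to triangles with a group of order four; three sides (family `A`) are
turned around by rotations of order two `b * M`, six sides (family `C`) lie on mirrors `b M`, the other fourteen are identified in seven pairs (family `X`, maps `gX`). The sum over all 26 sides is zero.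
-/

set_option autoImplicit false

namespace Pool.Agent.Helper76.P17

open Pool.Agent.Helper14.CV (Homog EqC act Tl StFar)
open Pool.Agent.Helper28.WK (SymP)
open Pool.Agent.Helper14.W5 (NewSymP NSP)

/-- The matrix `(a, 17^μ b; 17 c, d)` has determinant one and plane coordinates `(x, y)`, that is
`b = x a` modulo `q` and `c = y d` modulo `q'`. -/
def Pl17 (μ : ℕ) {q q' : ℕ} (a b c d : ℤ) (x : ZMod q) (y : ZMod q') : Prop :=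
  a * d - 17 ^ (μ + 1) * b * c = 1 ∧ (b : ZMod q) = x * a ∧ (c : ZMod q') = y * d

/-- The entry `Y` of the standard matrix `(1, 17^μ X; 17 Y, 1 + 17^(μ+1) X Y)`, `X = x.val`, with
coordinates `(x, y)`. -/
noncomputable def rY17 (μ : ℕ) {q q' : ℕ} (x : ZMod q) (y : ZMod q') : ℤ :=
  ((y * (1 - 17 ^ (μ + 1) * ((x.val : ℕ) : ZMod q') * y)⁻¹).val : ℤ)

/-- The value of the symbol of `G` on the path from `g v` to `g u` (`u = (u1,u2)`, `v = (v1,v2)`),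
where `g` is the standard matrix with plane coordinates `(x, y)`. -/
noncomputable def edge17 {R : Type} [AddCommGroup R] (μ : ℕ) {q q' : ℕ} (u1 u2 v1 v2 : ℤ)
    (G : ℤ → ℤ → R) (x : ZMod q) (y : ZMod q') : R :=
  G (u1 + 17 ^ μ * (x.val : ℤ) * u2) (17 * rY17 μ x y * u1 + (1 + 17 ^ (μ + 1) * (x.val : ℤ) * rY17 μ x y) * u2)
  - G (v1 + 17 ^ μ * (x.val : ℤ) * v2) (17 * rY17 μ x y * v1 + (1 + 17 ^ (μ + 1) * (x.val : ℤ) * rY17 μ x y) * v2)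

/-- PLA. The standard matrix has the right coordinates. Model (port `13 → 17`): `Pool/Agent/Helper84/P13/M_PlA.lean`, `Pool/Agent/Helper51/P13/M_PLA.lean`. -/
def S17PlA : Prop := ∀ (μ r s : ℕ) (x : ZMod (17 ^ r)) (y : ZMod (17 ^ s)),
  Pl17 μ 1 (x.val : ℤ) (rY17 μ x y) (1 + 17 ^ (μ + 1) * (x.val : ℤ) * rY17 μ x y) x y

/-- The content of EDG. -/
def S17Edg : Prop := ∀ (R : Type) (_ : AddCommGroup R) (μ r s : ℕ) (G : ℤ → ℤ → R),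
  SymP 17 (r + μ) (s + 1) G → ∀ (u1 u2 v1 v2 : ℤ), (u1 ≠ 0 ∨ u2 ≠ 0) → (v1 ≠ 0 ∨ v2 ≠ 0) →
  ∀ (x : ZMod (17 ^ r)) (y : ZMod (17 ^ s)) (a b c d : ℤ), Pl17 μ a b c d x y →
  edge17 μ u1 u2 v1 v2 G x y = G (a * u1 + 17 ^ μ * b * u2) (17 * c * u1 + d * u2) -
    G (a * v1 + 17 ^ μ * b * v2) (17 * c * v1 + d * v2)

/-- EDG (from PLA). Models (port `13 → 17`): `Pool/Agent/Helper84/P13/M_PlU.lean`, `Pool/Agent/Helper84/P13/M_Edg.lean`, `Pool/Agent/Helper51/P13/M_PLA.lean`. -/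
def StHEdg : Prop := S17PlA → S17Edg

/-- Balanced new symbols, even exponent `n = 2k`. -/
def BalE (k : ℕ) (G : ℤ → ℤ → ℂ) : Prop :=
  SymP 17 k k G ∧ EqC (∑ i ∈ Finset.range 17, act 1 (i * 17 ^ (k - 1)) 0 1 G) 0 ∧
    EqC (∑ i ∈ Finset.range 17, act 1 0 (i * 17 ^ (k - 1)) 1 G) 0 ∧
    EqC (act 0 (-1) 1 0 G) (-G) ∧ EqC (act (-1) 0 0 1 G) G

/-- Balanced new symbols, odd exponent `n = 2k+1`. -/
def BalO (k : ℕ) (G : ℤ → ℤ → ℂ) : Prop :=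
  SymP 17 k (k + 1) G ∧ EqC (∑ i ∈ Finset.range 17, act 1 (i * 17 ^ (k - 1)) 0 1 G) 0 ∧
    EqC (∑ i ∈ Finset.range 17, act 1 0 (i * 17 ^ k) 1 G) 0 ∧
    EqC (act 0 (-1) 17 0 G) (-G) ∧ EqC (act (-1) 0 0 1 G) G

/-- BAL. Transport to the balanced form by `(1 0; 0 17^k)`. Model (port `13 → 17`): `Pool/Agent/Helper55/P13/M_BAL.lean`, `Pool/Agent/Helper44/P11/M_BAL.lean`. -/
def HBal : Prop := ∀ (k : ℕ) (G : ℤ → ℤ → ℂ), 1 ≤ k →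
  (NewSymP 17 (2 * k) G → BalE k (act 1 0 0 (17 ^ k) G)) ∧
  (NewSymP 17 (2 * k + 1) G → BalO k (act 1 0 0 (17 ^ k) G)) ∧
  (Homog G → EqC (act 1 0 0 (17 ^ k) G) 0 → EqC G 0)

/-! ### Functions on the plane `(ZMod (17^m))²` -/

/-- The plane. -/
abbrev Pt (m : ℕ) : Type := ZMod (17 ^ m) × ZMod (17 ^ m)

/-- Right translation by `(a 17^μ b; 17c d)`, on points: `(x, y) ↦ ((b + d x)/(a + 17^(μ+1) c x), (c + a y)/(d + 17^(μ+1) b y))`. -/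
def trp (μ : ℕ) (a b c d : ℤ) {m : ℕ} (p : Pt m) : Pt m :=
  (((b : ZMod (17 ^ m)) + d * p.1) * ((a : ZMod (17 ^ m)) + 17 ^ (μ + 1) * c * p.1)⁻¹,
    ((c : ZMod (17 ^ m)) + a * p.2) * ((d : ZMod (17 ^ m)) + 17 ^ (μ + 1) * b * p.2)⁻¹)

/-- `(x, y) ↦ (-x, -y)`. -/
def ng {m : ℕ} (p : Pt m) : Pt m := (-p.1, -p.2)

/-- `(x, y) ↦ (y, x)`. -/
def sw {m : ℕ} (p : Pt m) : Pt m := (p.2, p.1)

/-- The vertical line: `(x, y) ↦ (-1-x, -y/(1+17^(μ+1) y))`. -/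
def dR (μ : ℕ) {m : ℕ} (p : Pt m) : Pt m := trp μ 1 (-1) 0 1 (ng p)

/-- Odd exponent (`μ = 0`): the circle around `1/2`, matrix `(17 -8; 34 -17) = b (2 -1; 17 -8)` (exchanges `∞` and `1/2`). -/
def cO {m : ℕ} (p : Pt m) : Pt m := trp 0 2 (-1) 1 (-8) (sw p)

/-- Odd exponent: the circle around `1/4`, matrix `(17 -4; 68 -17) = b (4 -1; 17 -4)` (exchanges `∞` and `1/4`, `1/3` and `5/17`). -/
def c4 {m : ℕ} (p : Pt m) : Pt m := trp 0 4 (-1) 1 (-4) (sw p)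

/-- Odd exponent: the rotation of order two around `1/3 + i/(3√17)`, matrix `(17 -6; 51 -17) = -b * (3 -1; -17 6)` (exchanges `∞` and `1/3`, `1/2` and `5/17`). -/
def rH {m : ℕ} (p : Pt m) : Pt m := trp 0 3 (-1) (-1) 6 (ng (sw p))

/-- Even exponent (`μ = 1`): the circle around `17/2`, matrix `(17 -144; 2 -17) = b (2 -17; 17 -144)` (fixes `8`, `9`). -/
def c8 {m : ℕ} (p : Pt m) : Pt m := trp 1 2 (-1) 1 (-144) (sw p)

/-- Even exponent: matrix `(34 -77; 15 -34) = b (15 -34; 34 -77)` (fixes `7/3`, exchanges `2` and `9/4`). -/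
def cQ {m : ℕ} (p : Pt m) : Pt m := trp 1 15 (-2) 2 (-77) (sw p)

/-- Even exponent: matrix `(17 -36; 8 -17) = b (8 -17; 17 -36)` (fixes `2`, `9/4`). -/
def cR {m : ℕ} (p : Pt m) : Pt m := trp 1 8 (-1) 1 (-36) (sw p)

/-- The matrices of the six mirrors: `(a, b, c, d)` stands for `b (a 17b; 17c d)`. They fix both ends of the paths `vC`: `{8/7, 22/19}` (`(-153 176; -133 153)`), `{5/4, 13/10}` (`(-51 65; -40 51)`), `{4/3, 3/2}` (`(-17 24; -12 17)`), `{11/7, 5/3}` (`(-34 55; -21 34)`), `{8/3, 3}` (`(-17 48; -6 17)`), `{4, 9/2}` (`(-17 72; -4 17)`). -/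
def mC : Fin 6 → ℤ × ℤ × ℤ × ℤ := ![(133, -9, 9, -176), (40, -3, 3, -65), (12, -1, 1, -24), (21, -2, 2, -55), (6, -1, 1, -48), (4, -1, 1, -72)]

/-- The reflections in the six mirrors. -/
def cC {m : ℕ} (i : Fin 6) (p : Pt m) : Pt m := trp 1 (mC i).1 (mC i).2.1 (mC i).2.2.1 (mC i).2.2.2 (sw p)

/-- The matrices of the three rotations of order two: `(a, b, c, d)` stands for `b * (a 17b; 17c d)`. They exchange the ends of the paths `vA`: `{5/3, 2}` (`(17 -29; 10 -17)`), `{5/2, 8/3}` (`(34 -89; 13 -34)`), `{3, 7/2}` (`(17 -58; 5 -17)`), up to sign. -/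
def mA : Fin 3 → ℤ × ℤ × ℤ × ℤ := ![(10, -1, -1, 29), (13, -2, -2, 89), (5, -1, -1, 58)]

/-- The three rotations. -/
def rA {m : ℕ} (i : Fin 3) (p : Pt m) : Pt m := trp 1 (mA i).1 (mA i).2.1 (mA i).2.2.1 (mA i).2.2.2 (ng (sw p))

/-- The matrices of the seven side pairings: `(a, b, c, d)` stands for `b (a 17b; 17c d)` if `eX i = -1` and for `b * (a 17b; 17c d)` if `eX i = 1`. With the paths `vX`: `{9/2, 5} ↦ {1, 8/7}` (`(-17 77; -15 68)`), `{13/2, 7} ↦ {7/6, 22/19}` (`(51 -335; 44 -289)`), `{7/3, 12/5} ↦ {6/5, 7/6}` (`(51 -121; 43 -102)`),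
`{7/2, 4} ↦ {5/4, 6/5}` (`(17 -62; 14 -51)`), `{5, 6} ↦ {4/3, 13/10}` (`(17 -89; 13 -68)`), `{6, 13/2} ↦ {3/2, 11/7}` (`(-17 105; -11 68)`), `{7, 8} ↦ {5/2, 12/5}` (`(17 -124; 7 -51)`), up to sign. -/
def mX : Fin 7 → ℤ × ℤ × ℤ × ℤ := ![(15, -4, 1, -77), (44, -17, -3, 335), (43, -6, -3, 121), (14, -3, -1, 62), (13, -4, -1, 89), (11, -4, 1, -105), (7, -3, -1, 124)]

/-- The signs of the side pairings. -/
def eX : Fin 7 → ℤ := ![-1, 1, 1, 1, 1, -1, 1]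

/-- The side pairings (not involutions). The value of the second path of the pair `i` (`{1, 8/7}`, `{22/19, 7/6}`, `{7/6, 6/5}`, `{6/5, 5/4}`, `{13/10, 4/3}`, `{3/2, 11/7}`, `{12/5, 5/2}`) is `eX i * X_i (gX i p)`, where `X_i` is the value of the path `vX i`. -/
def gX {m : ℕ} (i : Fin 7) (p : Pt m) : Pt m :=
  trp 1 (mX i).1 (mX i).2.1 (mX i).2.2.1 (mX i).2.2.2 (if eX i = -1 then sw p else ng (sw p))

/-- The paths of the family `X`: `(u1, u2, v1, v2)` stands for `{u1/u2, v1/v2}`. -/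
def vX : Fin 7 → ℤ × ℤ × ℤ × ℤ := ![(9, 2, 5, 1), (13, 2, 7, 1), (7, 3, 12, 5), (7, 2, 4, 1), (5, 1, 6, 1), (6, 1, 13, 2), (7, 1, 8, 1)]

/-- The paths of the family `C`. -/
def vC : Fin 6 → ℤ × ℤ × ℤ × ℤ := ![(8, 7, 22, 19), (5, 4, 13, 10), (4, 3, 3, 2), (11, 7, 5, 3), (8, 3, 3, 1), (4, 1, 9, 2)]

/-- The paths of the family `A`. -/
def vA : Fin 3 → ℤ × ℤ × ℤ × ℤ := ![(5, 3, 2, 1), (5, 2, 8, 3), (3, 1, 7, 2)]

/-- The map `r` is an involution. -/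
def Iv {m : ℕ} (r : Pt m → Pt m) : Prop := ∀ p, r (r p) = p

/-- The maps `r`, `r'` are commuting involutions. -/
def Kl {m : ℕ} (r r' : Pt m → Pt m) : Prop :=
  (∀ p, r (r p) = p) ∧ (∀ p, r' (r' p) = p) ∧ ∀ p, r (r' p) = r' (r p)

/-- `φ` has derivative `s` modulo `17`. -/
def Dv {m : ℕ} (s : ℤ) (φ : ZMod (17 ^ m) → ZMod (17 ^ m)) : Prop :=
  ∀ (i : ℕ) (x x' : ZMod (17 ^ m)), (17 : ZMod (17 ^ m)) ^ i ∣ x - x' →
    (17 : ZMod (17 ^ m)) ^ (i + 1) ∣ φ x - φ x' - s * (x - x')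

/-- Type `0`: `(x, y) ↦ (φ x, φ' y)` with derivatives `s`, `s'` different from `0` and `1` modulo `17`; type `1`: `(x, y) ↦ (ψ y, ψ' x)` with derivatives prime to `17`. -/
def Ty {m : ℕ} (n : ℕ) (r : Pt m → Pt m) : Prop :=
  (n = 0 ∧ ∃ (s s' : ℤ) (φ φ' : ZMod (17 ^ m) → ZMod (17 ^ m)), ¬ (17 : ℤ) ∣ s ∧ ¬ (17 : ℤ) ∣ s - 1 ∧ ¬ (17 : ℤ) ∣ s' ∧
    ¬ (17 : ℤ) ∣ s' - 1 ∧ Dv s φ ∧ Dv s' φ' ∧ ∀ p, r p = (φ p.1, φ' p.2)) ∨
  (n = 1 ∧ ∃ (s s' : ℤ) (ψ ψ' : ZMod (17 ^ m) → ZMod (17 ^ m)), ¬ (17 : ℤ) ∣ s ∧ ¬ (17 : ℤ) ∣ s' ∧ Dv s ψ ∧ Dv s' ψ' ∧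
    ∀ p, r p = (ψ p.2, ψ' p.1))

/-- TYP. The maps above and their types. Proof as TYP of P13 and P11 (`Pool/Agent/Helper72/P13/M_TYP.lean`, `Pool/Agent/Helper80/P11/M_TYP.lean`): `trp μ M' (trp μ M p) = trp μ (M M') p` (denominators are units as `17 ∤ a, d`; `trp` does not change under scalars prime to `17`), `sw (trp μ a b c d p) = trp μ d c b a (sw p)`,
`ng (trp μ a b c d p) = trp μ a (-b) (-c) d (ng p)`, `sw (sw p) = p`, `ng (sw p) = sw (ng p)`; so all relations are identities of matrices up to a scalar (mirrors: `c = -b`, rotations `b * M`: `c = b`). Derivatives: `1/a²`, `1/d²` modulo `17`, all prime to `17`; type `0` for `ng`, `dR` (`-1, -1`) and the rotations `sw (c4 p)`, `cQ (cR p)`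
(matrices `(4 ..; .. -4)`, `(38 ..; .. -38)`: derivatives `-1, -1`). For the tables `mC`, `mA`, `mX` prove one lemma for all matrices `(a 17b; 17c d)` with `17 ∤ a`, `17 ∤ d` and use `fin_cases`. -/
def HTyp : Prop := ∀ m : ℕ,
  (Kl (ng : Pt m → Pt m) sw ∧ Ty 0 (ng : Pt m → Pt m) ∧ Ty 1 (sw : Pt m → Pt m) ∧ Ty 1 (fun p : Pt m => ng (sw p))) ∧
  (Kl (dR 0 : Pt m → Pt m) cO ∧ Ty 0 (dR 0 : Pt m → Pt m) ∧ Ty 1 (cO : Pt m → Pt m) ∧ Ty 1 (fun p : Pt m => dR 0 (cO p))) ∧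
  (Kl (sw : Pt m → Pt m) c4 ∧ Ty 1 (c4 : Pt m → Pt m) ∧ Ty 0 (fun p : Pt m => sw (c4 p))) ∧
  (Iv (rH : Pt m → Pt m) ∧ Ty 1 (rH : Pt m → Pt m) ∧ ∀ p : Pt m, rH (c4 p) = cO (rH p)) ∧
  (Kl (dR 1 : Pt m → Pt m) c8 ∧ Ty 0 (dR 1 : Pt m → Pt m) ∧ Ty 1 (c8 : Pt m → Pt m) ∧ Ty 1 (fun p : Pt m => dR 1 (c8 p))) ∧
  (Kl (cQ : Pt m → Pt m) cR ∧ Ty 1 (cQ : Pt m → Pt m) ∧ Ty 1 (cR : Pt m → Pt m) ∧ Ty 0 (fun p : Pt m => cQ (cR p))) ∧
  ((∀ i : Fin 6, Iv (cC i : Pt m → Pt m) ∧ Ty 1 (cC i : Pt m → Pt m)) ∧ (∀ i : Fin 3, Iv (rA i : Pt m → Pt m) ∧ Ty 1 (rA i : Pt m → Pt m)) ∧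
    ∀ i : Fin 7, Ty 1 (gX i : Pt m → Pt m))

/-- Functions on the plane with vanishing sums over the translates by multiples of `17^(m-1)`, in both variables. -/
def anti17 (m : ℕ) : Submodule ℂ (Pt m → ℂ) where
  carrier := {F | ∀ p : Pt m, ∑ i ∈ Finset.range 17, F (p.1 + i * 17 ^ (m - 1), p.2) = 0 ∧
    ∑ i ∈ Finset.range 17, F (p.1, p.2 + i * 17 ^ (m - 1)) = 0}
  add_mem' := by
    intro F F' h h' p
    simp only [Pi.add_apply, Finset.sum_add_distrib, (h p).1, (h p).2, (h' p).1, (h' p).2, add_zero,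
      and_self]
  zero_mem' := by intro p; simp
  smul_mem' := by
    intro c F h p
    simp only [Pi.smul_apply, ← Finset.smul_sum, (h p).1, (h p).2, smul_zero, and_self]

/-- Functions of `anti17 m` with `F∘r = e F`. -/
def inv1 {m : ℕ} (r : Pt m → Pt m) (e : ℂ) : Submodule ℂ (Pt m → ℂ) where
  carrier := {F | F ∈ anti17 m ∧ ∀ p : Pt m, F (r p) = e * F p}
  add_mem' := by
    rintro F F' ⟨h0, h⟩ ⟨h0', h'⟩
    refine ⟨(anti17 m).add_mem h0 h0', fun p => ?_⟩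
    simp only [Pi.add_apply, h p, h' p, mul_add]
  zero_mem' := ⟨(anti17 m).zero_mem, by intro p; simp⟩
  smul_mem' := by
    rintro c F ⟨h0, h⟩
    refine ⟨(anti17 m).smul_mem c h0, fun p => ?_⟩
    simp only [Pi.smul_apply, smul_eq_mul, h p]
    ring

/-- Functions of `anti17 m` with `F∘r = e F`, `F∘r' = e' F`. -/
def inv17 {m : ℕ} (r r' : Pt m → Pt m) (e e' : ℂ) : Submodule ℂ (Pt m → ℂ) where
  carrier := {F | F ∈ anti17 m ∧ ∀ p : Pt m, F (r p) = e * F p ∧ F (r' p) = e' * F p}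
  add_mem' := by
    rintro F F' ⟨h0, h⟩ ⟨h0', h'⟩
    refine ⟨(anti17 m).add_mem h0 h0', fun p => ?_⟩
    simp only [Pi.add_apply, (h p).1, (h p).2, (h' p).1, (h' p).2, mul_add, and_self]
  zero_mem' := ⟨(anti17 m).zero_mem, by intro p; simp⟩
  smul_mem' := by
    rintro c F ⟨h0, h⟩
    refine ⟨(anti17 m).smul_mem c h0, fun p => ?_⟩
    simp only [Pi.smul_apply, smul_eq_mul, (h p).1, (h p).2]
    constructor <;> ring

/-- The content of DIMK. -/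
def HDimK : Prop := ∀ m : ℕ, 1 ≤ m → Module.finrank ℂ (anti17 m) = 256 * 289 ^ (m - 1) ∧
  (∀ (r : Pt m → Pt m) (e : ℤ), Iv r → Ty 1 r → (e = 1 ∨ e = -1) →
    2 * (Module.finrank ℂ (inv1 r (e : ℂ)) : ℤ) = 256 * 289 ^ (m - 1) + e * (16 * 17 ^ (m - 1))) ∧
  (∀ (r r' : Pt m → Pt m) (n n' n'' : ℕ) (e e' : ℤ), Kl r r' → Ty n r → Ty n' r' →
    Ty n'' (fun p => r (r' p)) → (e = 1 ∨ e = -1) → (e' = 1 ∨ e' = -1) →
    4 * (Module.finrank ℂ (inv17 r r' (e : ℂ) (e' : ℂ)) : ℤ) =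
      256 * 289 ^ (m - 1) + (e * n + e' * n' + e * e' * n'') * (16 * 17 ^ (m - 1)))

/-- DIMK (from TRQ). Dimensions by fixed points; the DIMK of P11 / P13 with `17` (`w 0 = 16/17`, `w i = -1/17`). Models (port): `Pool/Agent/Helper40/P11/M_DIMK.lean`, `Pool/Agent/Helper97/P13/M_DIMK.lean`. -/
def StHDimK : Prop := Pool.Agent.Helper78.W3.S3Trq → HDimK

/-- SPLIT. Every function of `anti17 m` (`m ≥ 1`) is the sum of one invariant under `ng` and one invariant under `dR μ`. Models (port): `Pool/Agent/Helper13/P13/M_SPLIT.lean`, `Pool/Agent/Helper55/P11/M_SPLIT.lean`. -/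
def HSplit : Prop := ∀ (μ m : ℕ), 1 ≤ m → ∀ φ ∈ anti17 m, ∃ f ∈ anti17 m, ∃ l ∈ anti17 m,
  (∀ p, f (ng p) = f p) ∧ (∀ p, l (dR μ p) = l p) ∧ ∀ p, f p + l p = φ p

/-- The difference of the values `{∞, 0}` and `{∞, 1/4}` in terms of `f = {∞, 0}`, `l = {∞, 1/2}`, `k = {∞, 1/3}`. -/
def hF {m : ℕ} (f l k : Pt m → ℂ) (p : Pt m) : ℂ := f p - (k p + k (c4 p) - l (rH p))

/-- The target for odd exponents: `((f, l), k)`, the values `{∞, 0}`, `{∞, 1/2}`, `{∞, 1/3}`. -/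
def subO (m : ℕ) : Submodule ℂ (((Pt m → ℂ) × (Pt m → ℂ)) × (Pt m → ℂ)) where
  carrier := {F | F.1.1 ∈ inv17 (m := m) ng sw 1 1 ∧ F.1.2 ∈ inv17 (m := m) (dR 0) cO 1 1 ∧
    F.2 ∈ inv1 (m := m) rH 1 ∧ ∀ p : Pt m, hF F.1.1 F.1.2 F.2 p + hF F.1.1 F.1.2 F.2 (c4 (sw p)) = 0}
  add_mem' := by
    rintro F F' ⟨h0, h1, h2, h⟩ ⟨h0', h1', h2', h'⟩
    refine ⟨Submodule.add_mem _ h0 h0', Submodule.add_mem _ h1 h1', Submodule.add_mem _ h2 h2',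
      fun p => ?_⟩
    have a := h p
    have b := h' p
    simp only [hF, Prod.fst_add, Prod.snd_add, Pi.add_apply] at a b ⊢
    linear_combination a + b
  zero_mem' := ⟨Submodule.zero_mem _, Submodule.zero_mem _, Submodule.zero_mem _, by intro p; simp [hF]⟩
  smul_mem' := by
    rintro c F ⟨h0, h1, h2, h⟩
    refine ⟨Submodule.smul_mem _ c h0, Submodule.smul_mem _ c h1, Submodule.smul_mem _ c h2,
      fun p => ?_⟩
    have a := h p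
    simp only [hF, Prod.smul_fst, Prod.smul_snd, Pi.smul_apply, smul_eq_mul] at a ⊢
    linear_combination c * a

/-- `F + F∘r' - F∘r - F∘r∘r'`. -/
def alt {m : ℕ} (r r' : Pt m → Pt m) (F : Pt m → ℂ) (p : Pt m) : ℂ := F p + F (r' p) - F (r p) - F (r (r' p))

/-- `F + F∘r' + F∘r + F∘r∘r'`. -/
def sm4 {m : ℕ} (r r' : Pt m → Pt m) (F : Pt m → ℂ) (p : Pt m) : ℂ := F p + F (r' p) + F (r p) + F (r (r' p))

/-- The eighteen functions `((F1, F8), (X, (C, A)))`. -/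
abbrev FnE (m : ℕ) : Type := ((Pt m → ℂ) × (Pt m → ℂ)) × ((Fin 7 → Pt m → ℂ) × ((Fin 6 → Pt m → ℂ) × (Fin 3 → Pt m → ℂ)))

/-- The value `{2, 7/3}`: minus the sum over the other 25 sides of the polygon. -/
def wF {m : ℕ} (F : FnE m) (p : Pt m) : ℂ :=
  F.1.2 p - F.1.1 p - ∑ i : Fin 6, F.2.2.1 i p - ∑ i : Fin 3, F.2.2.2 i p - ∑ i : Fin 7, F.2.1 i p - ∑ i : Fin 7, ((eX i : ℤ) : ℂ) * F.2.1 i (gX i p)

/-- The value `{2, 7/3}` is additive. -/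
theorem wF_add {m : ℕ} (F F' : FnE m) (p : Pt m) : wF (F + F') p = wF F p + wF F' p := by
  simp only [wF, Prod.fst_add, Prod.snd_add, Pi.add_apply, Finset.sum_add_distrib, mul_add]
  ring

/-- The value `{2, 7/3}` is homogeneous. -/
theorem wF_smul {m : ℕ} (c : ℂ) (F : FnE m) (p : Pt m) : wF (c • F) p = c * wF F p := by
  simp only [wF, Prod.smul_fst, Prod.smul_snd, Pi.smul_apply, smul_eq_mul, mul_sub, Finset.mul_sum]
  congr 1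
  refine Finset.sum_congr rfl fun i _ => ?_
  ring

/-- The target for even exponents: the values `{∞, 1}`, `{∞, 8}` and the families `vX`, `vC`, `vA`. -/
def subE (m : ℕ) : Submodule ℂ (FnE m) where
  carrier := {F | (F.1.1 ∈ anti17 m ∧ F.1.2 ∈ anti17 m ∧ ∀ i : Fin 7, F.2.1 i ∈ anti17 m) ∧
    ((∀ i : Fin 6, F.2.2.1 i ∈ inv1 (m := m) (cC i) (-1)) ∧ ∀ i : Fin 3, F.2.2.2 i ∈ inv1 (m := m) (rA i) 1) ∧
    (∀ p : Pt m, alt ng sw F.1.1 p = 0) ∧ (∀ p : Pt m, alt (dR 1) c8 F.1.2 p = 0) ∧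
    (∀ p : Pt m, sm4 cQ cR (wF F) p = 0)}
  add_mem' := by
    rintro F F' ⟨⟨h0, h1, h2⟩, ⟨h3, h4⟩, e0, e1, e2⟩ ⟨⟨h0', h1', h2'⟩, ⟨h3', h4'⟩, e0', e1', e2'⟩
    refine ⟨⟨(anti17 m).add_mem h0 h0', (anti17 m).add_mem h1 h1', fun i => (anti17 m).add_mem (h2 i) (h2' i)⟩,
      ⟨fun i => Submodule.add_mem _ (h3 i) (h3' i), fun i => Submodule.add_mem _ (h4 i) (h4' i)⟩,
      fun p => ?_, fun p => ?_, fun p => ?_⟩
    · have a := e0 p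
      have b := e0' p
      simp only [alt, Prod.fst_add, Prod.snd_add, Pi.add_apply] at a b ⊢
      linear_combination a + b
    · have a := e1 p
      have b := e1' p
      simp only [alt, Prod.fst_add, Prod.snd_add, Pi.add_apply] at a b ⊢
      linear_combination a + b
    · have a := e2 p
      have b := e2' p
      simp only [sm4, wF_add] at a b ⊢
      linear_combination a + b
  zero_mem' := by
    refine ⟨⟨(anti17 m).zero_mem, (anti17 m).zero_mem, fun i => (anti17 m).zero_mem⟩,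
      ⟨fun i => Submodule.zero_mem _, fun i => Submodule.zero_mem _⟩,
      by intro p; simp [alt], by intro p; simp [alt], by intro p; simp [sm4, wF]⟩
  smul_mem' := by
    rintro c F ⟨⟨h0, h1, h2⟩, ⟨h3, h4⟩, e0, e1, e2⟩
    refine ⟨⟨(anti17 m).smul_mem c h0, (anti17 m).smul_mem c h1, fun i => (anti17 m).smul_mem c (h2 i)⟩,
      ⟨fun i => Submodule.smul_mem _ c (h3 i), fun i => Submodule.smul_mem _ c (h4 i)⟩,
      fun p => ?_, fun p => ?_, fun p => ?_⟩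
    · have a := e0 p
      simp only [alt, Prod.smul_fst, Prod.smul_snd, Pi.smul_apply, smul_eq_mul] at a ⊢
      linear_combination c * a
    · have a := e1 p
      simp only [alt, Prod.smul_fst, Prod.smul_snd, Pi.smul_apply, smul_eq_mul] at a ⊢
      linear_combination c * a
    · have a := e2 p
      simp only [sm4, wF_smul] at a ⊢
      linear_combination c * a

/-- The content of DIMO. -/
def HDimO : Prop := ∀ m : ℕ, 1 ≤ m →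
  Module.finrank ℂ (subO m) = 192 * 289 ^ (m - 1) + 16 * 17 ^ (m - 1)

/-- DIMO (from TYP, DIMK, SPLIT). `a = 289^(m-1)`, `b = 17^(m-1)`. `Vf = inv17 ng sw 1 1`, `Vl = inv17 (dR 0) cO 1 1` have dimension `64a + 8b` (types `0, 1, 1`), `Vk = inv1 rH 1` has `128a + 8b`, `VB = inv17 sw c4 1 1` has `64a + 8b` (DIMK, types `1, 1, 0`). Put `e = k + k∘c4 - l∘rH`; it is invariant under `c4`, as `rH (c4 p) = cO (rH p)` (TYP). The map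
`((f, l), k) ↦ h + h∘c4∘sw`, `h = hF f l k = f - e`, from `(Vf × Vl) × Vk` to `VB`: its value is `f + f∘c4 - e - e∘sw`, invariant under `sw` and `c4`. It is onto: given `ψ` let (SPLIT, `μ = 0`) `ψ/4 = f1 + l1`, `f1` invariant under `ng`, `l1` under `dR 0`; `f = f1 + f1∘sw`, `k = -(l1 + l1∘rH)`, `l = -(l1 + l1∘cO)`. Then
`e = -(l1 + l1∘c4)` (the terms `l1∘rH`, `l1∘rH∘c4 = l1∘cO∘rH` cancel) and `f + f∘c4 - e - e∘sw` is the sum of `f1 + l1` over the group of order four of `sw`, `c4`, that is `ψ`. The kernel is `subO m`: `2(64a+8b) + (128a+8b) - (64a+8b) = 192a + 16b`. Model: `Pool/Agent/Helper8/P13/M_DIMO.lean`. -/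
def StHDimO : Prop := HTyp → HDimK → HSplit → HDimO

/-- The content of DIME. -/
def HDimE : Prop := ∀ m : ℕ, 1 ≤ m → Module.finrank ℂ (subE m) = 3264 * 289 ^ (m - 1) - 32 * 17 ^ (m - 1)

/-- DIME (from TYP, DIMK, SPLIT). `V = anti17 m` has dimension `256a`, `inv1 (rA i) 1` has `128a + 8b`, `inv1 (cC i) (-1)` has `128a - 8b`; targets `T0 = inv17 ng sw (-1) 1`, `T8 = inv17 (dR 1) c8 (-1) 1` (`64a`, types `0, 1, 1`), `TQ = inv17 cQ cR 1 1` (`64a + 8b`, types `1, 1, 0`). The map `F ↦ (alt ng sw F1, alt (dR 1) c8 F8, sm4 cQ cR (wF F))`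
from `(V × V) × ((Fin 7 → V) × ((Π i, inv1 (cC i) (-1)) × (Π i, inv1 (rA i) 1)))` (`Module.finrank_prod`, `Module.finrank_pi_fintype`) to `(T0 × T8) × TQ` is onto: for `(φ0, φ8, φQ)` let `w = φQ/4` and (SPLIT, `μ = 1`) `φ0/4 = f1 + l1`, `φ8/4 - w = f2 + l2`, `f1, f2` invariant under `ng`, `l1, l2` under `dR 1`; take
`F1 = l1 + f2`, `F8 = F1 + w`, all others `0`. Then `wF F = F8 - F1 = w`, `sm4 cQ cR w = φQ`, `alt ng sw F1 = alt ng sw l1 = φ0` (`alt ng sw f = 0` for `f` invariant under `ng`), `alt (dR 1) c8 F8 = alt (dR 1) c8 (f2 + w) = alt (dR 1) c8 (φ8/4 - l2) = φ8`. (`F∘gX i` is in `anti17 m` by `Ty 1`.) The kernel is `subE m`: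
`9·256a + 3(128a+8b) + 6(128a-8b) - 2·64a - (64a+8b) = 3264a - 32b`. Models: `Pool/Agent/Helper9/P13/M_DIME.lean`, `Pool/Agent/Helper45/P11/M_DIME.lean`. -/
def StHDimE : Prop := HTyp → HDimK → HSplit → HDimE

/-! ### Representatives -/

/-- The 306 representatives of the classes of `SL₂(ℤ)` modulo `(* 17*; 17* *)`. -/
def LE : List (ℤ × ℤ × ℤ × ℤ) :=
  [(0, 1, -1, 0), (1, 0, 0, 1), (-1, 1, -1, 0), (0, -1, 1, 1), (0, 1, -1, 1), (1, -1, 0, 1), (1, 0, -1, 1), (1, 0, 1, 1), (1, 1, -1, 0),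
   (1, 1, 0, 1), (-2, 1, -1, 0), (0, -1, 1, 2), (0, 1, -1, 2), (1, -2, 0, 1), (1, 0, -2, 1), (1, 0, 2, 1), (1, 2, 0, 1), (2, 1, -1, 0),
   (-3, 1, -1, 0), (-1, -2, 1, 1), (-1, -1, 2, 1), (-1, 1, -2, 1), (-1, 2, -1, 1), (0, -1, 1, 3), (0, 1, -1, 3), (1, -3, 0, 1), (1, -1, -1, 2),
   (1, 0, -3, 1), (1, 0, 3, 1), (1, 1, 1, 2), (1, 3, 0, 1), (2, -1, -1, 1), (2, 1, 1, 1), (3, 1, -1, 0), (-4, 1, -1, 0), (0, -1, 1, 4),
   (0, 1, -1, 4), (1, -4, 0, 1), (1, 0, -4, 1), (1, 0, 4, 1), (1, 4, 0, 1), (4, 1, -1, 0), (-5, 1, -1, 0), (-2, -3, 1, 1), (-2, -1, 3, 1),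
   (-2, 1, -3, 1), (-2, 3, -1, 1), (-1, -3, 1, 2), (-1, -1, 3, 2), (-1, 1, -3, 2), (-1, 3, -1, 2), (0, -1, 1, 5), (0, 1, -1, 5), (1, -5, 0, 1),
   (1, -2, -1, 3), (1, -1, -2, 3), (1, 0, -5, 1), (1, 0, 5, 1), (1, 1, 2, 3), (1, 2, 1, 3), (1, 5, 0, 1), (3, -2, -1, 1), (3, -1, -2, 1),
   (3, 1, 2, 1), (3, 2, 1, 1), (5, 1, -1, 0), (-6, 1, -1, 0), (-3, -2, 2, 1), (-3, 2, -2, 1), (-1, -2, 2, 3), (-1, 2, -2, 3), (0, -1, 1, 6),
   (0, 1, -1, 6), (1, -6, 0, 1), (1, 0, -6, 1), (1, 0, 6, 1), (1, 6, 0, 1), (2, -3, -1, 2), (2, -1, -3, 2), (2, 1, 3, 2), (2, 3, 1, 2),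
   (6, 1, -1, 0), (-7, 1, -1, 0), (-3, -4, 1, 1), (-3, -1, 4, 1), (-3, 1, -4, 1), (-3, 4, -1, 1), (-1, -4, 1, 3), (-1, -1, 4, 3), (-1, 1, -4, 3),
   (-1, 4, -1, 3), (0, -1, 1, 7), (0, 1, -1, 7), (1, -7, 0, 1), (1, -3, -1, 4), (1, -1, -3, 4), (1, 0, -7, 1), (1, 0, 7, 1), (1, 1, 3, 4),
   (1, 3, 1, 4), (1, 7, 0, 1), (4, -3, -1, 1), (4, -1, -3, 1), (4, 1, 3, 1), (4, 3, 1, 1), (7, 1, -1, 0), (-8, 1, -1, 0), (-2, -5, 1, 2),
   (-2, -1, 5, 2), (-2, 1, -5, 2), (-2, 5, -1, 2), (0, -1, 1, 8), (0, 1, -1, 8), (1, -8, 0, 1), (1, -2, -2, 5), (1, 0, -8, 1), (1, 0, 8, 1),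
   (1, 2, 2, 5), (1, 8, 0, 1), (5, -2, -2, 1), (5, 2, 2, 1), (8, 1, -1, 0), (-5, -3, 2, 1), (-5, 3, -2, 1), (-4, -5, 1, 1), (-4, -1, 5, 1),
   (-4, 1, -5, 1), (-4, 5, -1, 1), (-1, -5, 1, 4), (-1, -3, 2, 5), (-1, -2, 3, 5), (-1, -1, 5, 4), (-1, 1, -5, 4), (-1, 2, -3, 5), (-1, 3, -2, 5),
   (-1, 5, -1, 4), (1, -4, -1, 5), (1, -1, -4, 5), (1, 1, 4, 5), (1, 4, 1, 5), (2, -5, -1, 3), (2, -1, -5, 3), (2, 1, 5, 3), (2, 5, 1, 3),
   (3, -5, -1, 2), (3, 5, 1, 2), (5, -4, -1, 1), (5, -1, -4, 1), (5, 1, 4, 1), (5, 4, 1, 1), (-4, -3, 3, 2), (-2, 3, -3, 4), (3, -4, -2, 3),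
   (3, 2, 4, 3), (-5, -6, 1, 1), (-5, -1, 6, 1), (-5, 1, -6, 1), (-5, 6, -1, 1), (-3, -7, 1, 2), (-3, -5, 2, 3), (-3, -2, 5, 3), (-3, -1, 7, 2),
   (-3, 1, -7, 2), (-3, 2, -5, 3), (-3, 5, -2, 3), (-3, 7, -1, 2), (-2, -7, 1, 3), (-2, 7, -1, 3), (-1, -6, 1, 5), (-1, -1, 6, 5), (-1, 1, -6, 5),
   (-1, 6, -1, 5), (1, -5, -1, 6), (1, -3, -2, 7), (1, -2, -3, 7), (1, -1, -5, 6), (1, 1, 5, 6), (1, 2, 3, 7), (1, 3, 2, 7), (1, 5, 1, 6),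
   (2, -3, -3, 5), (2, 3, 3, 5), (5, -3, -3, 2), (5, 3, 3, 2), (6, -5, -1, 1), (6, -1, -5, 1), (6, 1, 5, 1), (6, 5, 1, 1), (7, -2, -3, 1),
   (7, 2, 3, 1), (-8, -3, 3, 1), (-6, -7, 1, 1), (-6, -1, 7, 1), (-6, 1, -7, 1), (-6, 7, -1, 1), (-1, -7, 1, 6), (-1, -1, 7, 6), (-1, 1, -7, 6),
   (-1, 3, -3, 8), (-1, 7, -1, 6), (1, -6, -1, 7), (1, -1, -6, 7), (1, 1, 6, 7), (1, 6, 1, 7), (3, -8, -1, 3), (3, 1, 8, 3), (7, -6, -1, 1),
   (7, -1, -6, 1), (7, 1, 6, 1), (7, 6, 1, 1), (-5, -4, 4, 3), (-5, 4, -4, 3), (-4, -9, 1, 2), (-3, -4, 4, 5), (-3, 4, -4, 5), (-2, -9, 1, 4),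
   (-2, 1, -9, 4), (1, 2, 4, 9), (1, 4, 2, 9), (4, -5, -3, 4), (4, -3, -5, 4), (4, 3, 5, 4), (4, 5, 3, 4), (9, -4, -2, 1), (-7, -8, 1, 1),
   (-7, -5, 3, 2), (-7, -1, 8, 1), (-7, 1, -8, 1), (-7, 5, -3, 2), (-7, 8, -1, 1), (-2, -3, 5, 7), (-2, 3, -5, 7), (-1, -8, 1, 7), (-1, -1, 8, 7),
   (-1, 1, -8, 7), (-1, 8, -1, 7), (1, -7, -1, 8), (1, -1, -7, 8), (1, 1, 7, 8), (1, 7, 1, 8), (3, -2, -7, 5), (3, 2, 7, 5), (5, -7, -2, 3),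
   (5, 7, 2, 3), (8, -7, -1, 1), (8, -1, -7, 1), (8, 1, 7, 1), (8, 7, 1, 1), (-5, -8, 2, 3), (-5, 8, -2, 3), (-3, -8, 2, 5), (-3, 8, -2, 5),
   (2, -5, -3, 8), (2, -3, -5, 8), (2, 3, 5, 8), (2, 5, 3, 8), (-8, -9, 1, 1), (1, 1, 8, 9), (-6, -5, 5, 4), (-6, 5, -5, 4), (-4, -5, 5, 6),
   (-4, 5, -5, 6), (5, -6, -4, 5), (5, -4, -6, 5), (5, 4, 6, 5), (5, 6, 4, 5), (-13, -7, 2, 1), (-13, 7, -2, 1), (-7, -2, 11, 3), (-7, 2, -11, 3),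
   (-3, -11, 2, 7), (-3, -7, 4, 9), (-3, 7, -4, 9), (-3, 11, -2, 7), (-1, -2, 7, 13), (-1, 2, -7, 13), (2, -7, -3, 11), (2, -1, -13, 7), (2, 1, 13, 7),
   (2, 7, 3, 11), (4, -9, -3, 7), (4, 9, 3, 7), (7, -13, -1, 2), (7, 13, 1, 2), (11, -3, -7, 2), (11, 3, 7, 2), (-7, -6, 6, 5), (-7, 6, -6, 5),
   (-5, -6, 6, 7), (-5, 6, -6, 7), (6, -7, -5, 6), (6, -5, -7, 6), (6, 5, 7, 6), (6, 7, 5, 6), (-8, -7, 7, 6), (-8, 7, -7, 6), (-6, -7, 7, 8),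
   (-6, 7, -7, 8), (7, -8, -6, 7), (7, -6, -8, 7), (7, 6, 8, 7), (7, 8, 6, 7), (-6, -13, 7, 15), (-6, 13, -7, 15), (7, -15, -6, 13), (7, 15, 6, 13)]

/-- The eighteen representatives of `Γ₀(17) \ SL₂(ℤ)`. -/
def LO : List (ℤ × ℤ × ℤ × ℤ) :=
  [(0, 1, -1, 0), (0, 1, -1, 1), (0, -1, 1, 1), (0, 1, -1, 2), (0, -1, 1, 2), (0, 1, -1, 3), (0, -1, 1, 3), (0, 1, -1, 4),
   (0, -1, 1, 4), (1, 0, 0, 1), (1, 0, 2, 1), (1, 0, -2, 1), (1, 1, 2, 3), (1, -1, -2, 3), (1, 0, 3, 1), (-1, 1, -3, 2),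
   (1, 0, -3, 1), (-1, -1, 3, 2)]

/-- The content of REP. -/
def HRep : Prop := ((∀ m ∈ LE, m.1 * m.2.2.2 - m.2.1 * m.2.2.1 = 1) ∧
  ∀ a b c d : ℤ, a * d - b * c = 1 → ∃ m ∈ LE, ∃ α β γ δ : ℤ, α * δ - 289 * β * γ = 1 ∧
    a = α * m.1 + 17 * β * m.2.2.1 ∧ b = α * m.2.1 + 17 * β * m.2.2.2 ∧
    c = 17 * γ * m.1 + δ * m.2.2.1 ∧ d = 17 * γ * m.2.1 + δ * m.2.2.2) ∧
  ((∀ m ∈ LO, m.1 * m.2.2.2 - m.2.1 * m.2.2.1 = 1) ∧
  ∀ a b c d : ℤ, a * d - b * c = 1 → ∃ m ∈ LO, ∃ α β γ δ : ℤ, α * δ - 17 * β * γ = 1 ∧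
    a = α * m.1 + β * m.2.2.1 ∧ b = α * m.2.1 + β * m.2.2.2 ∧
    c = 17 * γ * m.1 + δ * m.2.2.1 ∧ d = 17 * γ * m.2.1 + δ * m.2.2.2)

/-- REP. `g' = g m⁻¹` has the off-diagonal entries `b m1 - a m2` and `c m4 - d m3`; modulo `17` there is an `m` in `LE` for which both vanish (first and second rows proportional). Normalise the rows modulo `17` to `(1, t)` or `(0, 1)` before the finite check: `18 · 17` pairs (`decide` over `ZMod 17 × ZMod 17` in four cases). For `LO` only the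
second rows. Model (port): `Pool/Agent/Helper2/P13/M_REP.lean`. -/
def StHRep : Prop := HRep

/-- The eighteen functions of a symbol. -/
noncomputable def pf18 (m : ℕ) (G : ℤ → ℤ → ℂ) : FnE m :=
  (((fun p : Pt m => edge17 1 1 0 1 1 G p.1 p.2), (fun p : Pt m => edge17 1 1 0 8 1 G p.1 p.2)),
    ((fun i => fun p : Pt m => edge17 1 (vX i).1 (vX i).2.1 (vX i).2.2.1 (vX i).2.2.2 G p.1 p.2),
    ((fun i => fun p : Pt m => edge17 1 (vC i).1 (vC i).2.1 (vC i).2.2.1 (vC i).2.2.2 G p.1 p.2),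
    (fun i => fun p : Pt m => edge17 1 (vA i).1 (vA i).2.1 (vA i).2.2.1 (vA i).2.2.2 G p.1 p.2))))

/-- The content of E1A. -/
def HE1a : Prop := ∀ (k : ℕ) (G : ℤ → ℤ → ℂ), 2 ≤ k → BalE k G → pf18 (k - 1) G ∈ subE (k - 1)

/-- E1A (from EDG, PLA, TYP). Even exponent, `m = k - 1`, `μ = 1`, `b = (0 1; 1 0)`: `F1 = {∞, 1}`, `F8 = {∞, 8}`, the families `X`, `C`, `A` are the values of `vX`, `vC`, `vA`. (i) `anti17`: `(1 i17^(k-1); 0 1) g` has coordinates `(x + i 17^(k-2), y)`, `(1 0; i17^(k-1) 1) g` has `(x, y + i 17^(k-2))` for standard `g`.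
(ii) By the rule at the head of this file: `C_i(cC i p) = -C_i(p)` (both ends are fixed by `b (a 17b; 17c d)`), `A_i(rA i p) = A_i(p)` (the ends are exchanged by `b * M`: `{v, u} = -A_i(rA i p)`). (iii) Square `∞, 1, 0, -1`: `alt ng sw F1 = {∞,1} - {0,1} - {∞,-1} + {0,-1} = 0`. Square `∞, 8, 17/2, 9`: `F8(c8 p) = -{17/2,8}`, `F8(dR 1 p) = {∞,9}`
(`(-1 17; 0 1)`), `F8(dR 1 (c8 p)) = -{17/2,9}`: `alt (dR 1) c8 F8 = {∞,17/2} - {∞,17/2} = 0`. (iv) `eX i * X_i(gX i p)` is the value of the second path of the pair `i` (`{1, 8/7}`, `{22/19, 7/6}`, `{7/6, 6/5}`, `{6/5, 5/4}`, `{13/10, 4/3}`, `{3/2, 11/7}`, `{12/5, 5/2}`): for `eX i = -1` the matrix `b M` maps the path `vX i = {u, v}` to this path, for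
`eX i = 1` the matrix `b * M` maps it to the reversed path. The sum of all 26 sides of the polygon is zero (telescoping), so `wF = {2, 7/3}` (`{8, ∞} = -F8`). (v) `W + W∘cQ = {2,7/3} - {9/4,7/3} = {2, 9/4}` (`(34 -77; 15 -34)` fixes `7/3`, exchanges `2` and `9/4`), and `cR` (`(17 -36; 8 -17)` fixes `2`, `9/4`) changes its sign: `sm4 cQ cR W = 0`.
It is best to prove one lemma for all `M = (a 17b; 17c d)` of determinant one (`edge17 1 u v G` at `trp 1 a b c d (sw p)` is `-edge17 1 (bMu) (bMv) G p`, at `trp 1 a b c d (ng (sw p))` it is `-edge17 1 (b*Mu) (b*Mv) G p`, integers up to sign) and to apply it to the tables. Models: `Pool/Agent/Helper99/P13/M_E1A.lean`, `Pool/Agent/Helper53/P11/M_E1A.lean`. -/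
def StHE1a : Prop := S17Edg → S17PlA → HTyp → HE1a

/-- The content of E1B. -/
def HE1b : Prop := ∀ (k : ℕ) (G : ℤ → ℤ → ℂ), 2 ≤ k → BalE k G →
  (∀ x y : ZMod (17 ^ (k - 1)), (edge17 1 1 0 1 1 G x y = 0 ∧ edge17 1 1 0 8 1 G x y = 0) ∧
    (∀ i : Fin 7, edge17 1 (vX i).1 (vX i).2.1 (vX i).2.2.1 (vX i).2.2.2 G x y = 0) ∧
    (∀ i : Fin 6, edge17 1 (vC i).1 (vC i).2.1 (vC i).2.2.1 (vC i).2.2.2 G x y = 0) ∧
    ∀ i : Fin 3, edge17 1 (vA i).1 (vA i).2.1 (vA i).2.2.1 (vA i).2.2.2 G x y = 0) → EqC G 0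

/-- E1B (from EDG, PLA, REP, FAR). `~` as in E1B of P13 (`Pool/Agent/Helper70/P13/M_E1B.lean`) and P11 (`Pool/Agent/Helper89/P11/M_E1B.lean`): `v ~ w` if `G(gv) = G(gw)` for all `g = (a 17b; 17c d)` of determinant one; invariant under these `g`, `*`, `b = (0 1; 1 0)`. Given: `∞ ~ 1`, `∞ ~ 8`, `9/2 ~ 5`, `13/2 ~ 7`, `7/3 ~ 12/5`, `7/2 ~ 4`, `5 ~ 6`,
`6 ~ 13/2`, `7 ~ 8`, `8/7 ~ 22/19`, `5/4 ~ 13/10`, `4/3 ~ 3/2`, `11/7 ~ 5/3`, `8/3 ~ 3`, `4 ~ 9/2`, `5/3 ~ 2`, `5/2 ~ 8/3`, `3 ~ 7/2`. The side pairings give (apply the word, matrix): `1 ~ 8/7` (`9/2 ~ 5` by `(-17 77; -15 68)`), `22/19 ~ 7/6` (`13/2 ~ 7` by `(51 -335; 44 -289)`), `7/6 ~ 6/5` (`7/3 ~ 12/5` by `(51 -121; 43 -102)`), `6/5 ~ 5/4`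
(`7/2 ~ 4` by `(17 -62; 14 -51)`), `13/10 ~ 4/3` (`5 ~ 6` by `(17 -89; 13 -68)`), `3/2 ~ 11/7` (`6 ~ 13/2` by `(-17 105; -11 68)`), `12/5 ~ 5/2` (`7 ~ 8` by `(17 -124; 7 -51)`). So all vertices of the polygon are equivalent to `∞`. Further `0 ~ 1` (`∞ ~ 1` by `b`), `9 ~ ∞` (`8 ~ ∞` by `(-1 17; 0 1)`), `9/4 ~ 7/3` (`2 ~ 7/3` by `(34 -77; 15 -34)`),
`15/13 ~ 8/7` (`7/6 ~ 8/7` by `(-153 176; -133 153)`), `9/7 ~ 5/4` (`4/3 ~ 5/4` by `(-51 65; -40 51)`), `8/5 ~ 11/7` (`3/2 ~ 11/7` by `(-34 55; -21 34)`); the matrices are of the form `b M` or `b * M` or `* M`, `M = (a 17b; 17c d)`. With `*` and `b`: `∞, 0` and all `±v, ±1/v` for `v = 1, 2, 3, 4, 5, 6, 7, 8, 9, 3/2, 5/2, 7/2, 9/2, 13/2, 4/3, 5/3, 7/3, 8/3,`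
`5/4, 9/4, 6/5, 8/5, 12/5, 7/6, 8/7, 9/7, 11/7, 13/10, 15/13, 22/19` are equivalent: both cusps of every matrix in `LE`; REP and FAR. -/
def StHE1b : Prop := S17Edg → S17PlA → HRep → StFar → HE1b

/-- The content of O1. -/
def HO1 : Prop := ∀ (k : ℕ) (G : ℤ → ℤ → ℂ), 1 ≤ k → BalO k G →
  ((((fun p : Pt k => edge17 0 1 0 0 1 G p.1 p.2), (fun p : Pt k => edge17 0 1 0 1 2 G p.1 p.2)),
    (fun p : Pt k => edge17 0 1 0 1 3 G p.1 p.2)) ∈ subO k) ∧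
  ((∀ x y : ZMod (17 ^ k), edge17 0 1 0 0 1 G x y = 0 ∧ edge17 0 1 0 1 2 G x y = 0 ∧
    edge17 0 1 0 1 3 G x y = 0) → EqC G 0)

/-- O1 (from EDG, PLA, TYP, REP, FAR). Odd exponent, `m = k`, `μ = 0`, `b = (0 1; 17 0)`: `f = {∞, 0}`, `l = {∞, 1/2}`, `k = {∞, 1/3}`. `f(ng p) = f(p)`, `f(sw p) = -{0, ∞} = f(p)`; `l(dR 0 p) = l(p)` (`(-1 1; 0 1)`), `l(cO p) = -{1/2, ∞} = l(p)` (`(17 -8; 34 -17)`); `k(rH p) = -{1/3, ∞} = k(p)` (`(17 -6; 51 -17)`).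
`k(c4 p) = -{1/4, 5/17}` (`(17 -4; 68 -17)`: `∞ ↦ 1/4`, `1/3 ↦ 5/17`), `l(rH p) = -{1/3, 5/17}` (`∞ ↦ 1/3`, `1/2 ↦ 5/17`): `k + k∘c4 - l∘rH = {∞,1/3} - {1/4,5/17} + {1/3,5/17} = {∞, 1/4}`, so `hF f l k = {∞,0} - {∞,1/4} = {1/4, 0}`; `c4 (sw p) = p α`, `α = b (17 -4; 68 -17) = 17 (4 -1; 17 -4)`, which exchanges `0` and `1/4`:
`h + h∘c4∘sw = {1/4,0} + {0,1/4} = 0`. Injectivity (`~` as in E1B for `(a b; 17c d)`): given `∞ ~ 0`, `∞ ~ 1/2`, `∞ ~ 1/3`; `∞ ~ -1` (`∞ ~ 0` by `(1 -1; 0 1)`), `1/4 ~ 5/17` (`∞ ~ 1/3` by `(17 -4; 68 -17)`), `1/3 ~ 5/17` (`∞ ~ 1/2` by `(17 -6; 51 -17)`), so `1/4 ~ ∞`. With `*`: `0, ±1, ∞, ±1/2, ±1/3, ±1/4` are equivalent: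
both cusps of every matrix in `LO`; REP, FAR. Models: `Pool/Agent/Helper60/P13/M_O1.lean`, `Pool/Agent/Helper76/P11/M_O1.lean`. -/
def StHO1 : Prop := S17Edg → S17PlA → HTyp → HRep → StFar → HO1

/-- UB. For `n = 2k ≥ 4` the map to the eighteen functions in `subE (k-1)`, of dimension `dd17 n`; for `n = 2k+1 ≥ 3` the map to the three functions in `subO k`, of dimension `dd17 n`. Model: `Pool/Agent/Helper36/P13/M_UB.lean`. -/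
def StHUB : Prop := HBal → HE1a → HE1b → HO1 → HDimE → HDimO → UBP 17 dd17

end Pool.Agent.Helper76.P17
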